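import Pool.Agent.Y745.LD.DefsB

set_option autoImplicit false

/-!
LT project (helper745, MP_925da8_nt): lower bounds for the left tail of `log |ζ(1/2+it)|`, uniformly in the
threshold, unconditionally, from the LD library (`Pool.Agent.Y745.LD.Final`).
-/

namespace Pool.Agent.Y745.LT

open Filter Topology MeasureTheory Complex H370 Pool.Agent.Y745.SW Pool.Agent.Y745.LD

noncomputable section

/-- LOWM: for every real `κ` the set of `t ∈ [T, 2T]` with `|ζ(1/2+it)| = (log T)^(κ + O(η))` has measure at least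
`T (log T)^(- κ² - ε)` -/
def P_LOWM : Prop := ∀ κ η ε : ℝ, 0 < η → 0 < ε → ∀ᶠ T : ℝ in atTop,
  T * Real.log T ^ (-(κ ^ 2) - ε) ≤ volume.real {t : ℝ | t ∈ Set.Icc T (2 * T) ∧
    |Real.log ‖riemannZeta (1 / 2 + t * I)‖ - κ * LL T| ≤ η * LL T}

/-- ZTAIL: near the simple zeros with `|ζ'(ρ)| = (log T)^(1/2 + o(1))` zeta is small on a long interval -/
def P_ZTAIL : Prop := ∀ ε : ℝ, 0 < ε → ∀ᶠ T : ℝ in atTop, ∀ x : ℝ, 1 / 2 * LL T ≤ x →
  T * Real.exp (-x) * Real.log T ^ (1 / 4 - ε) ≤ volume.real {t : ℝ | t ∈ Set.Icc T (2 * T) ∧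
    ‖riemannZeta (1 / 2 + t * I)‖ < Real.exp (-x)}

end

end Pool.Agent.Y745.LT
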